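import Pool.Agent.MP_57341d_ag.H48G.End

/-! Monomials in the numbers `Γ(a / N) ^ 2 / π`. -/

open Module GPC73 GPC42 GPC72 GPCG53 GPCJ GPC48 Complex NumberField ComplexEmbedding

namespace GPC17

variable {N : ℕ} [NeZero N]

/-- The integer `2 N (⟨a / N⟩ - 1 / 2)`. -/
def w (N : ℕ) (a : ZMod N) : ℤ := if a = 0 then 0 else 2 * a.val - N

theorem w_eq (a : ZMod N) : (w N a : ℚ) = 2 * N * b1 N a := by
  have hN : (N : ℚ) ≠ 0 := by exact_mod_cast NeZero.ne N
  unfold w b1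
  split_ifs
  · simp
  · push_cast
    field_simp

theorem w_eps (a : ZMod N) : (N : ℤ) * eps N a = w N (2 * a) - 2 * w N a := by
  have : (((N : ℤ) * eps N a : ℤ) : ℚ) = ((w N (2 * a) - 2 * w N a : ℤ) : ℚ) := by
    push_cast
    rw [w_eq, w_eq, eps_eq]
    ring
  exact_mod_cast this

theorem mon_sum {κ α : Type} [Fintype κ] {y : κ → ℂ} (hy : ∀ i, y i ≠ 0) (t : Finset α)
    (c : α → ℤ) (v : α → κ → ℤ) : mon y (∑ a ∈ t, c a • v a) = ∏ a ∈ t, mon y (v a) ^ c a := by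
  classical
  induction t using Finset.induction_on with
  | empty => simp [mon]
  | insert a t h ih => rw [Finset.sum_insert h, Finset.prod_insert h, mon_add hy, mon_smul, ih]

variable {E : Type} [Field E] [NumberField E]

/-- The exponents of `Γ(a / N) ^ 2 / π`. -/
noncomputable def wp (s : (E →+* ℂ) → (ZMod N)ˣ) (b₀ : E →+* ℂ) (a : ZMod N)
    (o : Option (E →+* ℂ)) : ℤ := o.elim 0 fun ψ => w N ((s b₀ * (s ψ)⁻¹ : (ZMod N)ˣ) * a)

variable {d : ℕ} {b₀ : E →+* ℂ} {y : Option (E →+* ℂ) → ℂ} {z : E}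
  {s : (E →+* ℂ) → (ZMod N)ˣ}

theorem one [IsCMField E] [IsGalois ℚ E] (P : Pk d b₀ y)
    (hs : ∀ φ, φ z = ze N ^ (s φ : ZMod N).val) (hu : Function.Surjective s) (a : ZMod N) :
    IsAlgebraic ℚ (GG a ^ (2 * N) * mon y (wp s b₀ a)) := by
  have h0 : ∀ u, mon y u ≠ 0 := fun u =>
    Finset.prod_ne_zero_iff.2 fun i _ => zpow_ne_zero _ (P.ne i)
  have k := dbl (K := IntermediateField.adjoin ℚ (∅ : Set ℂ)) (fun a : ZMod N => 2 * a)
    (G := fun a => GG a ^ (2 * N) * mon y (wp s b₀ a))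
    (fun a => mul_ne_zero (pow_ne_zero _ (GG_ne a)) (h0 _)) (fun a => by
      have e : wp s b₀ (2 * a) = (N : ℤ) • ep s b₀ a + (2 : ℤ) • wp s b₀ a := by
        funext o
        cases o with
        | none => simp [wp, ep]
        | some ψ =>
          have := w_eps ((s b₀ * (s ψ)⁻¹ : (ZMod N)ˣ) * a : ZMod N)
          simp only [wp, ep, Option.elim_some, Pi.add_apply, Pi.smul_apply, smul_eq_mul]
          rw [mul_left_comm, this]
          ring
      refine Eq.subst (motive := IsAlgebraic _) ?_ (((sgn P hs hu a).pow N).tower_top _)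
      have h1 := h0 (ep s b₀ a)
      have h2 := h0 (wp s b₀ a)
      have h3 := GG_ne (2 * a)
      rw [e, mon_add P.ne, mon_smul, mon_smul, zpow_natCast, zpow_ofNat, div_pow, ← pow_mul,
        div_pow, ← pow_mul]
      field_simp
      ring) a
  rwa [IntermediateField.isAlgebraic_adjoin_iff, Algebra.adjoin_empty,
    Subalgebra.isAlgebraic_bot_iff Rat.cast_injective] at k

theorem main (N : ℕ) [NeZero N] (S : Set (ZMod N → ℤ)) :
    M.cRk ((fun m : ZMod N → ℤ => ∏ a, GG a ^ m a) '' S) = finrank ℚ (Submodule.span ℚ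
      ((fun (m : ZMod N → ℤ) (u : (ZMod N)ˣ) => ∑ a, (m a : ℚ) * b1 N (u * a)) '' S)) := by
  obtain ⟨E, _, _, _, _, hi, h3, z, s, hu, hs⟩ := cyc N
  obtain ⟨d, b₀, y, P⟩ := exists_pk hi h3
  have hN : (N : ℚ) ≠ 0 := by exact_mod_cast NeZero.ne N
  have h0 : ∀ u, mon y u ≠ 0 := fun u =>
    Finset.prod_ne_zero_iff.2 fun i _ => zpow_ne_zero _ (P.ne i)
  have n0 : ∀ m : ZMod N → ℤ, ∏ a, GG a ^ m a ≠ 0 := fun m =>
    Finset.prod_ne_zero_iff.2 fun a _ => zpow_ne_zero _ (GG_ne a)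
  have k : ∀ m : ZMod N → ℤ, IsAlgebraic ℚ (((∏ a, GG a ^ m a) ^ N) ^ 4 /
      mon y (∑ a, (-(2 * m a)) • wp s b₀ a)) := fun m => by
    have : ∏ a, (GG a ^ (2 * N) * mon y (wp s b₀ a)) ^ (2 * m a) ∈ algebraicClosure ℚ ℂ :=
      prod_mem fun a _ => zpow_mem (mem_algebraicClosure_iff.2 (one P hs hu a)) _
    refine Eq.subst (motive := IsAlgebraic ℚ) ?_ (mem_algebraicClosure_iff.1 this)
    rw [mon_sum P.ne, ← pow_mul, ← Finset.prod_pow, ← Finset.prod_div_distrib]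
    refine Finset.prod_congr rfl fun a _ => ?_
    rw [zpow_neg, div_inv_eq_mul, mul_zpow, ← zpow_natCast, ← zpow_natCast, ← zpow_mul, ← zpow_mul]
    congr 2
    push_cast
    ring
  let L : ((ZMod N)ˣ → ℚ) →ₗ[ℚ] Option (E →+* ℂ) → ℚ :=
    { toFun := fun f o => o.elim 0 fun ψ => -(4 * N) * f (s b₀ * (s ψ)⁻¹)
      map_add' := fun f g => funext fun o => by cases o <;> simp [mul_add]
      map_smul' := fun c f => funext fun o => by cases o <;> simp [mul_left_comm] }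
  have hL : Function.Injective L := (injective_iff_map_eq_zero L).2 fun f hf => funext fun u => by
    obtain ⟨ψ, h⟩ := hu (u⁻¹ * s b₀)
    simpa [L, h, hN] using congrFun hf (some ψ)
  have e : Submodule.span ℚ (cst '' ((fun m : ZMod N → ℤ => ∑ a, (-(2 * m a)) • wp s b₀ a) '' S)) =
      (Submodule.span ℚ ((fun (m : ZMod N → ℤ) (u : (ZMod N)ˣ) =>
        ∑ a, (m a : ℚ) * b1 N (u * a)) '' S)).map L := by
    rw [Submodule.map_span, Set.image_image, Set.image_image]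
    congr 2
    funext m o
    cases o with
    | none => simp [L, cst, wp]
    | some ψ =>
      simp only [L, cst, wp, Finset.sum_apply, Pi.smul_apply, Option.elim_some, smul_eq_mul,
        LinearMap.coe_mk, AddHom.coe_mk, Finset.mul_sum]
      push_cast
      refine Finset.sum_congr rfl fun a _ => ?_
      rw [w_eq]
      push_cast
      ring
  have od : Submodule.span ℚ ((fun (m : ZMod N → ℤ) (u : (ZMod N)ˣ) =>
      ∑ a, (m a : ℚ) * b1 N (u * a)) '' S) ≤ Od N := Submodule.span_le.2 (by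
    rintro _ ⟨m, _, rfl⟩ u
    simp only [Units.val_neg, neg_mul, b1_neg, mul_neg, Finset.sum_neg_distrib])
  have c : M.cRk ((fun m : ZMod N → ℤ => ∏ a, GG a ^ m a) '' S) =
      M.cRk ((fun m : ZMod N → ℤ => (∏ a, GG a ^ m a) ^ N) '' S) := by
    refine le_antisymm (rk_le ?_) (rk_le ?_)
    · rintro _ ⟨m, hm, rfl⟩
      exact mem_cl.2 ((mem_cl.1 (sub_cl _ (Set.mem_image_of_mem
        (fun m : ZMod N → ℤ => (∏ a, GG a ^ m a) ^ N) hm))).of_pow (NeZero.pos N))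
    · rintro _ ⟨m, hm, rfl⟩
      exact mem_cl.2 ((mem_cl.1 (sub_cl _ (Set.mem_image_of_mem
        (fun m : ZMod N → ℤ => ∏ a, GG a ^ m a) hm))).pow N)
  rw [c, crk_mon P.ne (U := (fun m : ZMod N → ℤ => ∑ a, (-(2 * m a)) • wp s b₀ a) '' S)
    (by rintro _ ⟨m, hm, rfl⟩; exact ⟨_, ⟨m, hm, rfl⟩, k m⟩)
    (by rintro _ ⟨m, hm, rfl⟩; exact ⟨_, ⟨m, hm, rfl⟩, pow_ne_zero _ (n0 m), k m⟩),
    P.zero, e, ← (Submodule.equivMapOfInjective L hL _).finrank_eq]
  rw [e]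
  rintro _ ⟨f, hf, rfl⟩
  refine ⟨⟨fun ψ => ?_, fun ψ χ h => ?_⟩, rfl⟩
  · simp only [L, LinearMap.coe_mk, AddHom.coe_mk, Option.elim_some, s_conj hs, inv_neg, mul_neg,
      od hf _]
  · rw [RingHom.ext fun x => h x IntermediateField.mem_top]

/-- The transcendence degree of any set of monomials is the rank of its Koblitz-Ogus vectors. -/
theorem top (N : ℕ) [NeZero N] (S : Set (ZMod N → ℤ)) :
    Algebra.trdeg ℚ (IntermediateField.adjoin ℚ {z : ℂ | ∃ m ∈ S, z =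
      ∏ a ∈ Finset.univ.erase (0 : ZMod N), (Gamma ((a.val : ℂ) / N) ^ 2 / Real.pi) ^ m a}) =
    (finrank ℚ (Submodule.span ℚ {f : (ZMod N)ˣ → ℚ | ∃ m ∈ S, f = fun u : (ZMod N)ˣ =>
      ∑ a ∈ Finset.univ.erase (0 : ZMod N),
        (m a : ℚ) * ((((u : ZMod N) * a).val : ℚ) / N - 1 / 2)}) : ℕ) := by
  have e1 : ∀ m : ZMod N → ℤ, ∏ a ∈ Finset.univ.erase (0 : ZMod N),
      (Gamma ((a.val : ℂ) / N) ^ 2 / Real.pi) ^ m a = ∏ a, GG a ^ m a := fun m => by
    rw [← Finset.prod_erase Finset.univ (f := fun a => GG a ^ m a) (a := 0) (by simp [GG])]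
    exact Finset.prod_congr rfl fun a ha => by rw [GG, if_neg (Finset.ne_of_mem_erase ha)]
  have e2 : ∀ (m : ZMod N → ℤ) (u : (ZMod N)ˣ), ∑ a ∈ Finset.univ.erase (0 : ZMod N),
      (m a : ℚ) * ((((u : ZMod N) * a).val : ℚ) / N - 1 / 2) =
        ∑ a, (m a : ℚ) * b1 N (u * a) := fun m u => by
    rw [← Finset.sum_erase Finset.univ (f := fun a => (m a : ℚ) * b1 N (u * a)) (a := 0)
      (by simp [b1])]
    exact Finset.sum_congr rfl fun a ha => by
      rw [b1, if_neg (by simpa using Finset.ne_of_mem_erase ha)]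
  have s1 : {z : ℂ | ∃ m ∈ S, z = ∏ a ∈ Finset.univ.erase (0 : ZMod N),
      (Gamma ((a.val : ℂ) / N) ^ 2 / Real.pi) ^ m a} =
        (fun m : ZMod N → ℤ => ∏ a, GG a ^ m a) '' S :=
    Set.ext fun _ => exists_congr fun m => and_congr_right fun _ => by rw [e1, eq_comm]
  have s2 : {f : (ZMod N)ˣ → ℚ | ∃ m ∈ S, f = fun u : (ZMod N)ˣ =>
      ∑ a ∈ Finset.univ.erase (0 : ZMod N),
        (m a : ℚ) * ((((u : ZMod N) * a).val : ℚ) / N - 1 / 2)} =
      (fun (m : ZMod N → ℤ) (u : (ZMod N)ˣ) => ∑ a, (m a : ℚ) * b1 N (u * a)) '' S :=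
    Set.ext fun _ => exists_congr fun m => and_congr_right fun _ => by
      rw [funext (e2 m), eq_comm]
  rw [trdeg_eq, s1, s2, main]

end GPC17
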